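import Mathlib
import Pool.Agent.Q299.Cay.Union

/-!
# The Cheeger constant of a random Cayley graph of a finite abelian group

For every `δ` there is `c > 0` such that for `k` i.i.d. uniform generators with
`k - d(G) ≥ δ k` the Cheeger constant of the Cayley graph exceeds `c |G|^{-1/k}` with probability
tending to one as `k → ∞`, uniformly in the abelian group `G`.
-/

namespace Pool.Agent.Results.MP_2a19a6_pr.CheegerOrder

open Finset Pool.Agent.Q299.Cay

universe u

/-- Number of edges (with multiplicity) of the Cayley multigraph with exactly one endpoint in `A`: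
the multigraph has one edge `{g, g + Z i}` for every `g : G` and every `i < k`. -/
noncomputable def boundary {G : Type u} [AddCommGroup G] {k : ℕ} (Z : Fin k → G) (A : Set G) : ℕ :=
  Nat.card {e : G × Fin k // ¬ (e.1 ∈ A ↔ e.1 + Z e.2 ∈ A)}

/-- The Cheeger constant: `1 / (2k)` times the minimum over the sets `A` with
`1 ≤ |A| ≤ |G| / 2` of `boundary A / |A|`. -/
noncomputable def cheeger {G : Type u} [AddCommGroup G] {k : ℕ} (Z : Fin k → G) : ℝ :=
  sInf {x : ℝ | ∃ A : Set G, 1 ≤ Nat.card A ∧ 2 * Nat.card A ≤ Nat.card G ∧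
    x = (boundary Z A : ℝ) / Nat.card A} / (2 * k)

lemma boundary_eq {G : Type u} [AddCommGroup G] [Fintype G] [DecidableEq G] {k : ℕ}
    (Z : Fin k → G) (A : Finset G) :
    (boundary Z (A : Set G) : ℝ) = 2 * ∑ i, (out A (Z i) : ℝ) := by
  classical
  have h1 : boundary Z (A : Set G) =
      ∑ i, (univ.filter fun g => ¬ (g ∈ A ↔ g + Z i ∈ A)).card := by
    unfold boundary
    rw [Nat.card_eq_fintype_card, Fintype.card_subtype, card_filter, Fintype.sum_prod_type_right]
    refine sum_congr rfl fun i _ => ?_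
    rw [card_filter]
    simp only [mem_coe]
  have h2 : ∀ i, (univ.filter fun g => ¬ (g ∈ A ↔ g + Z i ∈ A)).card = 2 * out A (Z i) := by
    intro i
    have h3 : (univ.filter fun g => ¬ (g ∈ A ↔ g + Z i ∈ A)) =
        (A.filter fun g => g + Z i ∉ A) ∪ (univ.filter fun g => g ∉ A ∧ g + Z i ∈ A) := by
      ext g
      simp only [mem_filter, mem_univ, true_and, mem_union]
      tauto
    rw [h3, card_union_of_disjoint, card_in_eq]
    · unfold out
      ring
    · rw [disjoint_left]
      intro g hg hg'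
      rw [mem_filter] at hg hg'
      exact hg'.2.1 hg.1
  rw [h1, sum_congr rfl fun i _ => h2 i, ← mul_sum]
  push_cast
  ring

/-- If all the kernel sums are at least `w` then the Cheeger constant is at least
`w² / (576 k²)`. -/
lemma cheeger_ge {G : Type u} [AddCommGroup G] [Fintype G] [DecidableEq G] {k : ℕ} (hk : 0 < k)
    (hG : 2 ≤ Fintype.card G)
    (Z : Fin k → G) (J : ℕ) (w : ℝ) (hw : 0 ≤ w)
    (hZ : ∀ χ : AddChar G ℂ, χ ≠ 0 → w ≤ ∑ i, kap J (χ (Z i))) :
    w ^ 2 / (576 * k ^ 2) ≤ cheeger Z := by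
  classical
  have hk' : (0 : ℝ) < k := by exact_mod_cast hk
  unfold cheeger
  rw [le_div_iff₀ (by positivity)]
  apply le_csInf
  · refine ⟨_, ({0} : Set G), ?_, ?_, rfl⟩
    · simp
    · rw [Nat.card_eq_fintype_card (α := G)]
      simpa using hG
  · rintro x ⟨A, hA1, hA2, rfl⟩
    have hcard : Nat.card A = A.toFinset.card := by
      rw [Nat.card_eq_fintype_card, Set.toFinset_card]
    have h1 : (boundary Z A : ℝ) = 2 * ∑ i, (out A.toFinset (Z i) : ℝ) := by
      rw [← boundary_eq, Set.coe_toFinset]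
    rw [hcard] at hA1 hA2 ⊢
    rw [Nat.card_eq_fintype_card] at hA2
    have h2 := boundary_bound Z J w hw hZ A.toFinset (by omega) hA2
    have hpos : (0 : ℝ) < A.toFinset.card := by exact_mod_cast hA1
    rw [h1, le_div_iff₀ hpos]
    have h3 : w ^ 2 / (576 * (k : ℝ) ^ 2) * (2 * k) * A.toFinset.card =
        2 * (w ^ 2 * A.toFinset.card) / (576 * k) := by
      field_simp
    rw [h3, div_le_iff₀ (by positivity)]
    linarith

/-- **Main theorem.** For every `δ ∈ (0,1)` there is `c > 0` such that for every `ε > 0` there is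
`M` such that for every finite abelian group `G` with at least two elements and every `k ≥ M` with
`k - d(G) ≥ δ k`, the probability that the Cheeger constant of the Cayley graph of `k` independent
uniform generators is at most `c |G|^{-1/k}` is at most `ε`. -/
theorem result : ∀ δ : ℝ, 0 < δ → δ < 1 → ∃ c : ℝ, 0 < c ∧ ∀ ε : ℝ, 0 < ε → ∃ M : ℕ,
    ∀ (G : Type u) [AddCommGroup G] [Finite G], 2 ≤ Nat.card G →
    ∀ k : ℕ, M ≤ k → δ * k ≤ (k : ℝ) - (AddGroup.rank G : ℝ) →
      (Nat.card {Z : Fin k → G // cheeger Z ≤ c * (Nat.card G : ℝ) ^ (-(1 / (k : ℝ)))} : ℝ) /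
        (Nat.card (Fin k → G) : ℝ) ≤ ε := by
  intro δ hδ hδ1
  have hlog2 : 0 < Real.log 2 := Real.log_pos (by norm_num)
  -- the base `x = 2^{δ/4}`
  set x : ℝ := Real.exp (δ * Real.log 2 / 4) with hx
  have hx1 : 1 < x := by
    rw [hx, Real.one_lt_exp_iff]
    positivity
  set L : ℝ := 16 / (δ * Real.log 2) with hL
  have hLpos : 0 < L := by positivity
  set c₁ : ℝ := (x - 1) / 4 with hc₁
  have hc₁pos : 0 < c₁ := by rw [hc₁]; linarith
  have hx4 : x ^ 4 = Real.exp (δ * Real.log 2) := by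
    rw [hx, ← Real.exp_nat_mul]
    congr 1
    push_cast
    ring
  have hx4' : x ^ 4 < 2 := by
    rw [hx4]
    calc Real.exp (δ * Real.log 2) < Real.exp (Real.log 2) := by
          apply Real.exp_lt_exp.mpr
          nlinarith
      _ = 2 := Real.exp_log (by norm_num)
  have hxpos : 0 < x := by linarith
  refine ⟨c₁ / (2000 * L ^ 2), by positivity, ?_⟩
  intro ε hε
  -- choose M
  set y : ℝ := (x ^ 2)⁻¹ with hy
  have hypos : 0 < y := by positivity
  have hy1 : y < 1 := by
    rw [hy]
    apply inv_lt_one_of_one_lt₀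
    nlinarith
  obtain ⟨M₁, hM₁⟩ := exists_pow_lt_of_lt_one (show 0 < ε / 5 by positivity) hy1
  refine ⟨max (max M₁ 1) ⌈2 / δ⌉₊, ?_⟩
  intro G _ _ hG k hk hd
  classical
  have : Fintype G := Fintype.ofFinite G
  have hG' : 2 ≤ Fintype.card G := by rwa [Nat.card_eq_fintype_card] at hG
  have hkM : M₁ ≤ k := (le_max_left _ _).trans ((le_max_left _ _).trans hk)
  have hk1 : 1 ≤ k := (le_max_right _ _).trans ((le_max_left _ _).trans hk)
  have hk2 : 2 / δ ≤ k := by
    have h1 : ⌈2 / δ⌉₊ ≤ k := (le_max_right _ _).trans hk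
    exact (Nat.le_ceil _).trans (by exact_mod_cast h1)
  have hk' : (0 : ℝ) < k := by exact_mod_cast hk1
  obtain ⟨T, hTcard, hT⟩ := AddGroup.rank_spec G
  rw [← hTcard] at hd
  have hδk : 2 ≤ δ * k := by
    rw [div_le_iff₀ hδ] at hk2
    linarith
  have hTk : T.card + 2 ≤ k := by
    have : ((T.card + 2 : ℕ) : ℝ) ≤ k := by
      push_cast
      linarith
    exact_mod_cast this
  set N : ℝ := (Fintype.card G : ℝ) with hN
  have hN2 : (2 : ℝ) ≤ N := by rw [hN]; exact_mod_cast hG'
  have hN0 : 0 < N := by linarith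
  set p : ℝ := N ^ (1 / (k : ℝ)) with hp
  have hppos : 0 < p := Real.rpow_pos_of_pos hN0 _
  have hpk : p ^ k = N := by
    rw [hp, ← Real.rpow_natCast, ← Real.rpow_mul hN0.le, one_div, inv_mul_cancel₀ hk'.ne',
      Real.rpow_one]
  have hpinv : N ^ (-(1 / (k : ℝ))) = p⁻¹ := by rw [Real.rpow_neg hN0.le]
  set s : ℝ := √(c₁ / (2 * p)) with hs
  have hspos : 0 < s := Real.sqrt_pos.mpr (by positivity)
  have hs2 : s ^ 2 = c₁ / (2 * p) := Real.sq_sqrt (by positivity)
  have hsc : 2 * s ^ 2 = c₁ / p := by rw [hs2]; field_simp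
  set w : ℝ := s * k / L with hw
  have hwpos : 0 < w := by positivity
  have hJ : Fintype.card G ≤ 2 ^ Fintype.card G := (Nat.lt_two_pow_self).le
  have hub := union_bound (G := G) hT hTk hJ (w := w) hspos hppos hpk hc₁pos hsc
  -- the event is contained in the bad event
  have hsub : (Nat.card {Z : Fin k → G //
      cheeger Z ≤ c₁ / (2000 * L ^ 2) * (Nat.card G : ℝ) ^ (-(1 / (k : ℝ)))} : ℝ) ≤
      ((univ.filter fun Z : Fin k → G => ∃ χ : AddChar G ℂ, χ ≠ 0 ∧
        ∑ i, kap (Fintype.card G) (χ (Z i)) < w).card : ℝ) := by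
    rw [Nat.card_eq_fintype_card, Fintype.card_subtype]
    norm_cast
    refine card_le_card fun Z hZ => ?_
    rw [mem_filter] at hZ ⊢
    refine ⟨mem_univ _, ?_⟩
    by_contra hcon
    push Not at hcon
    have h1 := cheeger_ge (by omega : 0 < k) hG' Z (Fintype.card G) w hwpos.le hcon
    have h2 := h1.trans hZ.2
    have h3 : (Nat.card G : ℝ) = N := by rw [Nat.card_eq_fintype_card]
    rw [h3, hpinv] at h2
    have h4 : w ^ 2 / (576 * (k : ℝ) ^ 2) = c₁ / (1152 * L ^ 2) * p⁻¹ := by
      rw [hw, div_pow, mul_pow, hs2]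
      field_simp
      norm_num
    rw [h4] at h2
    have h5 : c₁ / (1152 * L ^ 2) ≤ c₁ / (2000 * L ^ 2) := le_of_mul_le_mul_right h2 (by positivity)
    have h6 : c₁ / (2000 * L ^ 2) < c₁ / (1152 * L ^ 2) := by
      apply div_lt_div_of_pos_left hc₁pos (by positivity)
      have : 0 < L ^ 2 := by positivity
      linarith
    linarith
  have hcardZ : (Nat.card (Fin k → G) : ℝ) = N ^ k := by
    rw [Nat.card_eq_fintype_card, Fintype.card_fun, Fintype.card_fin]
    push_cast
    rfl
  rw [hcardZ, div_le_iff₀ (by positivity)]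
  refine hsub.trans (hub.trans ?_)
  rw [mul_comm ε]
  refine mul_le_mul_of_nonneg_left ?_ (by positivity)
  -- numerical estimates
  have he : Real.exp (4 * w / s) = x ^ k := by
    rw [hx, ← Real.exp_nat_mul]
    congr 1
    rw [hw, hL]
    field_simp
    ring
  have hpow : (1 / 2 : ℝ) ^ (k - T.card) ≤ ((x ^ 4)⁻¹) ^ k := by
    have h1 : (1 / 2 : ℝ) ^ (k - T.card) = Real.exp (-(Real.log 2 * ((k : ℝ) - T.card))) := by
      rw [Real.exp_neg, mul_comm, ← Nat.cast_sub (by omega : T.card ≤ k), Real.exp_nat_mul,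
        Real.exp_log (by norm_num), one_div, inv_pow]
    rw [h1, hx4, ← Real.exp_neg, ← Real.exp_nat_mul]
    apply Real.exp_le_exp.mpr
    have := mul_le_mul_of_nonneg_left hd hlog2.le
    linarith
  have hc4 : 1 + 4 * c₁ = x := by rw [hc₁]; ring
  have hc5 : 1 / 4 + c₁ = x / 4 := by rw [hc₁]; ring
  rw [he, hc4, hc5]
  have h1 : x ^ k * (x ^ k * (4 * (1 / 2) ^ (k - T.card)) + (x / 4) ^ k) ≤
      4 * y ^ k + y ^ k := by
    have h2 : x ^ k * (x ^ k * (4 * (1 / 2) ^ (k - T.card))) ≤ 4 * y ^ k := by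
      calc x ^ k * (x ^ k * (4 * (1 / 2) ^ (k - T.card)))
          ≤ x ^ k * (x ^ k * (4 * ((x ^ 4)⁻¹) ^ k)) := by
            refine mul_le_mul_of_nonneg_left ?_ (by positivity)
            refine mul_le_mul_of_nonneg_left ?_ (by positivity)
            linarith
        _ = 4 * (x * x * (x ^ 4)⁻¹) ^ k := by
            rw [mul_pow, mul_pow]
            ring
        _ = 4 * y ^ k := by
            congr 2
            rw [hy]
            field_simp
    have h3 : x ^ k * (x / 4) ^ k ≤ y ^ k := by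
      rw [← mul_pow]
      refine pow_le_pow_left₀ (by positivity) ?_ k
      rw [hy, ← one_div, le_div_iff₀ (by positivity)]
      nlinarith
    rw [mul_add]
    linarith
  refine h1.trans ?_
  have h4 : y ^ k ≤ y ^ M₁ := pow_le_pow_of_le_one hypos.le hy1.le hkM
  linarith

end Pool.Agent.Results.MP_2a19a6_pr.CheegerOrder
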